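import Pool.Agent.Lib.MP_09eaec_ag.GG.Coh

/-!
# TASK A2: line bundles are given by divisors

* `exists_eq_line`: `E` is a bundle with generic fibre `K`. `E.upper` for `φ = id` gives `e` with
  `E.M P ⊆ P.filt (e P)`; `E.lower 1` gives `e'` with `P.filt (e' P) ⊆ E.M P` (`c • 1 = c`). So for each
  `P` the set of the orders of the nonzero elements of `E.M P` is nonempty, bounded below by `e P`;
  let `-D P` be its minimum. If `x ∈ E.M P` has order `-D P` then each `y ∈ P.filt (-D P)` is
  `(y / x) • x` with `y / x ∈ P.filt 0`, so `P.filt (-D P) = E.M P`. `e P ≤ -D P ≤ e' P` shows that `D`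
  has finite support (it is zero outside of the supports of `e` and `e'`).
* `oneStep_line`: take `x` with `P.ord x = -D P - 1` (`exists_ord_eq`). For `y ∈ P.filt (-D P - 1)` the
  quotient `y / x` is regular at `P`; by `exists_residue` (file Residue.lean) there is `c : k` with
  `y / x - c ∈ P.filt 1`, so `y - c x ∈ P.filt (-D P)`.
* `H0_line_of_neg`: a nonzero `x ∈ H0` has `P.ord x ≥ -D P` for all `P`, so by `ddeg_mono`
  `ddeg (-D) ≤ ddeg (dv x) = 0` (`ddeg_dv`), a contradiction.
* `exists_two_places`: there are infinitely many places (`infinite_place`, file Residue.lean).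
-/

set_option autoImplicit false

namespace Pool.Agent.MP_09eaec.GG

open Module

universe u v

variable {k : Type u} {K : Type v} [Field k] [Field K] [Algebra k K]
variable {W : Type v} [AddCommGroup W] [Module K W] [Module k W] [IsScalarTower k K W]
variable {A : Type v} [AddCommGroup A] [Module K A] [Module k A] [IsScalarTower k K A]
variable {B : Type v} [AddCommGroup B] [Module K B] [Module k B] [IsScalarTower k K B]

variable [Curve k K]

theorem infinite_places : Infinite (Place k K) := by
  haveI := Curve.closed (k := k) (K := K)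
  haveI := Curve.char (k := k) (K := K)
  exact Set.infinite_univ_iff.1 (infinite_place (Curve.curve (k := k) (K := K)))

omit [Curve k K] in
private theorem LineBasic_stalk (E : VB k K K) (P : Place k K) {a b : ℤ}
    (ha : ∀ x ∈ E.M P, x ∈ P.filt a) (hb : ∀ c ∈ P.filt b, c ∈ E.M P) :
    ∃ m : ℤ, a ≤ m ∧ m ≤ b ∧ ∀ x, x ∈ E.M P ↔ x ∈ P.filt m := by
  have hord : ∀ x ∈ E.M P, x ≠ 0 → a ≤ P.ord x := fun x hx hx0 => (ha x hx).resolve_left hx0
  obtain ⟨t, ht, htb⟩ := exists_ord_eq P b
  have htM : t ∈ E.M P := hb t (Or.inr htb.ge)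
  obtain ⟨m, ⟨y, hy, hy0, hym⟩, hmin⟩ :=
    Int.exists_least_of_bdd (P := fun n => ∃ x ∈ E.M P, x ≠ 0 ∧ P.ord x = n)
      ⟨a, by rintro z ⟨x, hx, hx0, rfl⟩; exact hord x hx hx0⟩ ⟨b, t, htM, ht, htb⟩
  refine ⟨m, hym ▸ hord y hy hy0, hmin b ⟨t, htM, ht, htb⟩, fun x => ⟨fun hx => ?_, ?_⟩⟩
  · by_cases hx0 : x = 0
    · exact Or.inl hx0
    · exact Or.inr (hmin _ ⟨x, hx, hx0, rfl⟩)
  · rintro (rfl | hx)
    · exact zero_mem _
    · by_cases hx0 : x = 0
      · rw [hx0]; exact zero_mem _
      have h1 : x = (x / y) • y := by rw [smul_eq_mul, div_mul_cancel₀ _ hy0]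
      rw [h1]
      refine E.smul_mem P _ _ (Or.inr ?_) hy
      rw [P.ord_div _ _ hx0 hy0]
      omega

omit [Curve k K] in
private theorem LineBasic_exists [Curve k K] (E : VB k K K) : ∃ D : Dv k K, E = line D := by
  obtain ⟨e, he⟩ := E.upper LinearMap.id
  obtain ⟨e', he'⟩ := E.lower 1
  have h1 : ∀ P, ∃ m : ℤ, e P ≤ m ∧ m ≤ e' P ∧ ∀ x, x ∈ E.M P ↔ x ∈ P.filt m := fun P =>
    LineBasic_stalk E P (fun x hx => he P x hx) (fun c hc => by
      have := he' P c hc
      rwa [smul_eq_mul, mul_one] at this)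
  choose m hm1 hm2 hm3 using h1
  have hfin : (Function.support fun P => - m P).Finite := by
    classical
    refine (Finset.finite_toSet (e.support ∪ e'.support)).subset fun P hP => ?_
    rw [Finset.mem_coe, Finset.mem_union]
    by_contra hcon
    push Not at hcon
    rw [Finsupp.notMem_support_iff, Finsupp.notMem_support_iff] at hcon
    apply hP
    have := hm1 P
    have := hm2 P
    show - m P = 0
    omega
  refine ⟨Finsupp.ofSupportFinite _ hfin, VB.ext' fun P x => ?_⟩
  rw [mem_line, hm3 P x]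
  have h2 : (Finsupp.ofSupportFinite (fun P => - m P) hfin) P = - m P := rfl
  rw [h2, neg_neg]

theorem exists_eq_line (E : VB k K K) : ∃ D : Dv k K, E = line D := LineBasic_exists E

theorem line_le_line {D D' : Dv k K} : line D ≤ line D' ↔ ∀ P, D P ≤ D' P := by
  constructor
  · intro h P
    obtain ⟨t, ht, htm⟩ := exists_ord_eq P (- D P)
    have h1 : t ∈ P.filt (- D' P) := h P (show t ∈ P.filt (- D P) from Or.inr htm.ge)
    have h2 := h1.resolve_left ht
    omega
  · intro h P
    exact filt_mono P (neg_le_neg (h P))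

theorem line_inj {D D' : Dv k K} : (line D : VB k K K) = line D' ↔ D = D' := by
  constructor
  · intro h
    ext P
    exact le_antisymm (line_le_line.1 (h ▸ VB.le_refl' _) P) (line_le_line.1 (h ▸ VB.le_refl' _) P)
  · rintro rfl; rfl

theorem oneStep_line (D : Dv k K) (P : Place k K) :
    ∃ x : K, x ≠ 0 ∧ P.ord x = - D P - 1 ∧
      VB.OneStep (line D) (line (D + Finsupp.single P 1)) P x := by
  classical
  haveI := Curve.closed (k := k) (K := K)
  haveI := Curve.char (k := k) (K := K)
  obtain ⟨x, hx, hxm⟩ := exists_ord_eq P (- D P - 1)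
  have hP : (D + Finsupp.single P 1 : Dv k K) P = D P + 1 := by simp
  refine ⟨x, hx, hxm, ?_, ?_, ?_, ?_, ?_⟩
  · rw [line_le_line]
    intro Q
    rw [Finsupp.add_apply, Finsupp.single_apply]
    split_ifs <;> omega
  · intro Q hQ
    have hQ' : (D + Finsupp.single P 1 : Dv k K) Q = D Q := by
      rw [Finsupp.add_apply, Finsupp.single_apply, if_neg (Ne.symm hQ), add_zero]
    show Q.filt (- D Q) = Q.filt (- (D + Finsupp.single P 1 : Dv k K) Q)
    rw [hQ']
  · rw [mem_line, hP]
    exact Or.inr (by omega)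
  · rw [mem_line]
    intro h
    have := h.resolve_left hx
    omega
  · intro y hy
    rw [mem_line, hP] at hy
    have h1 : y / x ∈ P.filt 0 := by
      by_cases hy0 : y = 0
      · rw [hy0, zero_div]; exact zero_mem _
      · have := hy.resolve_left hy0
        right
        rw [P.ord_div _ _ hy0 hx]
        omega
    obtain ⟨c, hc⟩ := exists_residue (Curve.curve (k := k) (K := K)) P (f := y / x) h1
    refine ⟨c, ?_⟩
    have h2 : y / x - algebraMap k K c ∈ P.filt 1 := by
      rcases hc with hc | hc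
      · exact Or.inl hc
      · exact Or.inr (by omega)
    have h3 : y - c • x = (y / x - algebraMap k K c) * x := by
      rw [sub_mul, div_mul_cancel₀ _ hx, Algebra.smul_def]
    rw [mem_line, h3]
    refine filt_mono P ?_ (mul_mem_filt P h2 (Or.inr hxm.ge))
    omega

private theorem LineBasic_ord {D : Dv k K} {x : K} (hx : x ∈ (line D).H0) (hx0 : x ≠ 0)
    (P : Place k K) : (- D) P ≤ (dv x : Dv k K) P := by
  have h1 : x ∈ P.filt (- D P) := VB.mem_H0.1 hx P
  exact h1.resolve_left hx0

theorem H0_line_of_neg {D : Dv k K} (h : ddeg D < 0) : (line D).H0 = ⊥ := by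
  rw [eq_bot_iff]
  intro x hx
  rw [Submodule.mem_bot]
  by_contra hx0
  have h1 := ddeg_mono (LineBasic_ord hx hx0)
  rw [ddeg_dv, ddeg_neg] at h1
  omega

/-- The functions without poles are the constants. -/
theorem H0_line_zero {x : K} (hx : x ∈ (line (0 : Dv k K)).H0) : ∃ c : k, algebraMap k K c = x := by
  haveI := Curve.closed (k := k) (K := K)
  haveI := Curve.char (k := k) (K := K)
  haveI := infinite_places (k := k) (K := K)
  obtain ⟨P⟩ : Nonempty (Place k K) := inferInstance
  have h1 : x ∈ P.filt (- (0 : Dv k K) P) := VB.mem_H0.1 hx P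
  have h2 : P.IsInt x := by
    rcases h1 with h1 | h1
    · exact Or.inl h1
    · exact Or.inr (by simpa using h1)
  obtain ⟨c, hc⟩ := exists_residue (Curve.curve (k := k) (K := K)) P h2
  refine ⟨c, ?_⟩
  by_contra hne
  have h0 : x - algebraMap k K c ≠ 0 := fun h => hne (sub_eq_zero.1 h).symm
  have h3 : x - algebraMap k K c ∈ (line (0 : Dv k K)).H0 := by
    refine (line (0 : Dv k K)).H0.sub_mem hx (VB.mem_H0.2 fun Q => ?_)
    rw [mem_line]
    right
    rw [Q.ord_algebraMap]
    simp
  have h4 := eq_of_ddeg_le (D := 0) (D' := dv (x - algebraMap k K c)) (fun Q => by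
    have := LineBasic_ord h3 h0 Q
    simpa using this) (by rw [ddeg_dv, ddeg_zero])
  have h5 : (dv (x - algebraMap k K c) : Dv k K) P = 0 := by rw [← h4]; rfl
  rw [dv_apply] at h5
  have h6 := hc.resolve_left h0
  omega

theorem h0_line_zero : (line (0 : Dv k K)).h0 = 1 := by
  have h1 : (line (0 : Dv k K)).H0 = Submodule.span k {(1 : K)} := by
    apply le_antisymm
    · intro x hx
      obtain ⟨c, rfl⟩ := H0_line_zero hx
      rw [Submodule.mem_span_singleton]
      exact ⟨c, by rw [Algebra.smul_def, mul_one]⟩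
    · rw [Submodule.span_singleton_le_iff_mem, VB.mem_H0]
      intro P
      rw [mem_line]
      right
      rw [P.ord_one]
      simp
  unfold VB.h0
  rw [h1, finrank_span_singleton one_ne_zero]
  rfl

/-- Multiplication with a function `f` with `f O(D) ⊆ O(D')` maps `N (O(D))` to `N (O(D'))`. -/
theorem smul_mem_N {D D' : Dv k K} {f : K} (hf : ∀ P : Place k K, f ∈ P.filt (D P - D' P))
    {a : Place k K →₀ K} (ha : a ∈ (line D).N) : f • a ∈ (line D').N := by
  obtain ⟨w, hw⟩ := ha
  refine ⟨f * w, fun P => ?_⟩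
  have h1 : (f • a) P - f * w = f * (a P - w) := by
    rw [Finsupp.smul_apply, smul_eq_mul, mul_sub]
  rw [h1, mem_line]
  refine filt_mono P ?_ (mul_mem_filt P (hf P) (hw P))
  omega

end Pool.Agent.MP_09eaec.GG
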