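import Pool.Agent.Lib.MP_09eaec_ag.GG.ToVB
import Pool.Agent.Lib.MP_09eaec_ag.GG.LineBasic

/-!
# The genus of a curve, and TASK D6

`sections E`: the global sections. `IsGenus k K g`: `g` is the least integer such that
`dim H⁰(L) ≥ deg L + 1 - g` for all line bundles `L`.

TASK Genus. For `D : Dv k K` let `L` be the `Bundle k K 1` with `g P = (t_P)`, `P.ord t_P = -D P`,
`t_P = 1` if `D P = 0`; `L.deg = ddeg D` (see `line`, `deg_line` in Gonality.lean for the existing
construction), `L.Mem P x ↔ x 0 ∈ P.filt (-D P)`, so `sections L ≃ H0 (line D)` (`LinearEquiv.funUnique`).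
Conversely each `L : Bundle k K 1` gives the divisor `D P = - P.ord (L.g P).det`. So the two sets of lower bounds
are equal.
-/

set_option autoImplicit false

namespace Pool.Agent.MP_09eaec

universe u v

variable {k : Type u} {K : Type v} [Field k] [Field K] [Algebra k K]

/-- The space of the global sections of a vector bundle. -/
def sections {n : ℕ} (E : Bundle k K n) : Submodule k (Fin n → K) where
  carrier := {x | ∀ P, E.Mem P x}
  add_mem' := fun ha hb P => E.mem_add P (ha P) (hb P)
  zero_mem' := fun P => E.mem_zero P
  smul_mem' := fun c x hx P => by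
    have := E.mem_smul P (hx P) (P.isInt_algebraMap c)
    rwa [algebraMap_smul] at this

/-- `g` is the genus of the curve with function field `K`: the least integer `g` such that
`dim H⁰(L) ≥ deg L + 1 - g` for all line bundles `L`. -/
def IsGenus (k : Type u) (K : Type v) [Field k] [Field K] [Algebra k K] (g : ℤ) : Prop :=
  IsLeast {g : ℤ | ∀ L : Bundle k K 1, L.deg + 1 - g ≤ Module.finrank k (sections L)} g

namespace GG

private lemma genus_aux [Curve k K] (L : Bundle k K 1) (D : Dv k K)
    (h : ∀ P : Place k K, P.ord (L.g P).det = - D P) :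
    L.deg = ddeg D ∧ (Module.finrank k (sections L) : ℤ) = (line D).h0 := by
  constructor
  · unfold Bundle.deg
    rw [finsum_congr h, finsum_eq_sum_of_support_subset (s := D.support)]
    · rw [Finset.sum_neg_distrib, neg_neg]
      rfl
    · intro P hP
      rw [Function.mem_support] at hP
      rw [Finset.mem_coe, Finsupp.mem_support_iff]
      omega
  · have h1 : (line D).H0 = (sections L).map (ev1 k K).toLinearMap := by
      ext x
      rw [VB.mem_H0, Submodule.mem_map]
      have key : ∀ (P : Place k K) (y : Fin 1 → K), L.Mem P y ↔ y 0 ∈ P.filt (-D P) := by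
        intro P y
        rw [Bundle.mem_one_iff]
        have hd := L.det_ne_zero P
        constructor
        · rintro (h2 | h2)
          · left
            exact (mul_eq_zero.1 h2).resolve_left (inv_ne_zero hd)
          · by_cases h0 : y 0 = 0
            · exact Or.inl h0
            · right
              rw [P.ord_mul _ _ (inv_ne_zero hd) h0, P.ord_inv, h P] at h2
              omega
        · rintro (h2 | h2)
          · left
            rw [h2, mul_zero]
          · by_cases h0 : y 0 = 0
            · left
              rw [h0, mul_zero]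
            · right
              rw [P.ord_mul _ _ (inv_ne_zero hd) h0, P.ord_inv, h P]
              omega
      constructor
      · intro hx
        refine ⟨fun _ => x, fun P => (key P _).2 (hx P), rfl⟩
      · rintro ⟨y, hy, rfl⟩ P
        exact (key P y).1 (hy P)
    unfold VB.h0
    rw [h1]
    exact_mod_cast (LinearEquiv.finrank_map_eq (ev1 k K) (sections L)).symm

/-- TASK Genus. As `curve2_of_isGenus` in Lib/MP_09eaec_ag/G2/Genus.lean: by `genus_aux` the two sets of
lower bounds are equal: for `D` take `L = Bundle.line (fun P => - D P) hm` (`Bundle.ord_det_line`), for `L` take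
the divisor `D P = - P.ord (L.g P).det`. -/
theorem genus_set_eq [Curve k K] :
    {g : ℤ | ∀ D : Dv k K, ddeg D + 1 - g ≤ (line D).h0} =
      {g : ℤ | ∀ L : Bundle k K 1, L.deg + 1 - g ≤ Module.finrank k (sections L)} := by
  ext g
  rw [Set.mem_ofPred_eq, Set.mem_ofPred_eq]
  constructor
  · intro hr L
    have hm := L.hasFiniteSupport
    obtain ⟨D, hD⟩ : ∃ D : Dv k K, ∀ P : Place k K, P.ord (L.g P).det = - D P := by
      refine ⟨Finsupp.ofSupportFinite (fun P : Place k K => - P.ord (L.g P).det) ?_, ?_⟩
      · refine hm.subset ?_
        intro P hP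
        rw [Function.mem_support] at hP ⊢
        omega
      · intro P
        show _ = - (- P.ord (L.g P).det)
        rw [neg_neg]
    obtain ⟨h1, h2⟩ := genus_aux L D hD
    rw [h1, h2]
    exact hr D
  · intro hL D
    have hm : Function.HasFiniteSupport (fun P : Place k K => - D P) := by
      refine D.support.finite_toSet.subset ?_
      intro P hP
      rw [Function.mem_support] at hP
      rw [Finset.mem_coe, Finsupp.mem_support_iff]
      omega
    obtain ⟨h1, h2⟩ := genus_aux (Bundle.line (fun P => - D P) hm) D
      (fun P => Bundle.ord_det_line _ hm P)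
    have h3 := hL (Bundle.line (fun P => - D P) hm)
    rw [h1, h2] at h3
    exact h3

theorem curveG_of_isGenus [IsAlgClosed k] [CharZero k] (hK : IsCurveField k K) {g : ℤ}
    (hg : 2 ≤ g) (h : IsGenus k K g) : ∃ _ : CurveG k K, gen k K = g := by
  have hC : Curve k K := ⟨inferInstance, inferInstance, hK⟩
  have h1 : IsLeast {g : ℤ | ∀ D : Dv k K, ddeg D + 1 - g ≤ (line D).h0} g := by
    rw [genus_set_eq]; exact h
  have h2 : gen k K = g := h1.csInf_eq
  exact ⟨{ toCurve := hC, two_le := by rw [h2]; exact hg, isLeast := by rw [h2]; exact h1 }, h2⟩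

end GG

end Pool.Agent.MP_09eaec
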