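import Pool.Agent.Lib.MP_09eaec_ag.Mg.G015
import Pool.Agent.Lib.MP_09eaec_ag.Mg.G013
import Pool.Agent.Lib.MP_09eaec_ag.Mg.G014
import Pool.Agent.Lib.MP_09eaec_ag.Mg.G016
import Pool.Agent.Lib.MP_09eaec_ag.GG.Genus

/-!
# Assembly: the minimal degree for more than `(g - 1) n` sections
-/

set_option autoImplicit false

namespace Pool.Agent.MP_09eaec.GG

open Module

universe u v

variable {k : Type u} {K : Type v} [Field k] [Field K] [Algebra k K]
variable {W : Type v} [AddCommGroup W] [Module K W] [Module k W] [IsScalarTower k K W]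
variable {A : Type v} [AddCommGroup A] [Module K A] [Module k A] [IsScalarTower k K A]
variable {B : Type v} [AddCommGroup B] [Module K B] [Module k B] [IsScalarTower k K B]

lemma mem_stableDegrees [CurveG k K] {n d : ℕ} (hn : 0 < n) {E : VB k K (Fin n → K)}
    {V : Submodule k (Fin n → K)} {α : ℝ} (hα : 0 < α) (hV : V ≤ E.H0) (hd : finrank k V = d)
    (h : E.StableSys α V) : E.deg ∈ stableDegrees k K n d := by
  obtain ⟨E', rfl⟩ := exists_toVB_eq E
  have hS : IsSystem E' V := fun v hv P => VB.mem_H0.1 (hV hv) P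
  exact ⟨α, hα, E', V, hS, hd, (deg_toVB E').symm, isStable_of_stableSys hα hn hS h⟩

lemma of_mem_stableDegrees [CurveG k K] {n d : ℕ} {e : ℤ} (he : e ∈ stableDegrees k K n d) :
    ∃ (E : VB k K (Fin n → K)) (V : Submodule k (Fin n → K)) (α : ℝ), 0 < α ∧ V ≤ E.H0 ∧
      finrank k V = d ∧ E.deg = e ∧ E.StableSys α V := by
  obtain ⟨α, hα, E, V, hS, hV, rfl, hst⟩ := he
  exact ⟨toVB E, V, α, hα, fun v hv => VB.mem_H0.2 fun P => hS v hv P, hV, deg_toVB E,
    stableSys_of_isStable hS hst⟩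

/-- At least `g n` sections. -/
theorem isLeast_high [IsAlgClosed k] [CharZero k] (hK : IsCurveField k K) {g : ℤ} (hg : 2 ≤ g)
    (hgen : IsGenus k K g) {n d : ℕ} (hn : 2 ≤ n) (hd : g * n ≤ d) :
    IsLeast (stableDegrees k K n d) (d + (g - 1) * n) := by
  obtain ⟨_, rfl⟩ := curveG_of_isGenus hK hg hgen
  constructor
  · obtain ⟨E, hE, hst, -⟩ := exists_stable (k := k) (K := K) (r := n) (by omega)
      ((d : ℤ) + (gen k K - 1) * n)
    obtain ⟨V, α, hα, hV, hf, hS⟩ := high_system hn hd hE hst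
    have := mem_stableDegrees (by omega) hα hV hf hS
    rw [hE] at this
    exact this
  · intro e he
    obtain ⟨E, V, α, hα, hV, hf, rfl, hst⟩ := of_mem_stableDegrees he
    have := lower_i hV hα (by rw [finrank_fin_fun]; exact hn) hst
      (by rw [finrank_fin_fun, hf]; exact hd)
    rw [finrank_fin_fun, hf] at this
    exact this

/-- The number `⌈d / (g - 1)⌉`. -/
lemma ceil_bounds {g : ℤ} (hg : 2 ≤ g) (d : ℕ) :
    (g - 1) * (⌈(d : ℚ) / ((g : ℚ) - 1)⌉ - 1) < d ∧ (d : ℤ) ≤ (g - 1) * ⌈(d : ℚ) / ((g : ℚ) - 1)⌉ := by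
  have hgq : (0 : ℚ) < (g : ℚ) - 1 := by
    have : (2 : ℚ) ≤ g := by exact_mod_cast hg
    linarith
  obtain ⟨c, hc⟩ : ∃ c : ℤ, c = ⌈(d : ℚ) / ((g : ℚ) - 1)⌉ := ⟨_, rfl⟩
  have h1 := Int.le_ceil ((d : ℚ) / ((g : ℚ) - 1))
  have h2 := Int.ceil_lt_add_one ((d : ℚ) / ((g : ℚ) - 1))
  rw [← hc] at h1 h2 ⊢
  rw [div_le_iff₀ hgq] at h1
  have h3 : (c : ℚ) - 1 < (d : ℚ) / ((g : ℚ) - 1) := by linarith
  rw [lt_div_iff₀ hgq] at h3
  constructor
  · have : ((g : ℚ) - 1) * ((c : ℚ) - 1) < d := by linarith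
    exact_mod_cast this
  · have : (d : ℚ) ≤ ((g : ℚ) - 1) * c := by linarith
    exact_mod_cast this

/-- The lower bound. -/
theorem lower_mid [IsAlgClosed k] [CharZero k] (hK : IsCurveField k K) {g : ℤ} (hg : 2 ≤ g)
    (hgen : IsGenus k K g) {n d : ℕ} (hn : 2 ≤ n) (hd : (g - 1) * n < d) (hd' : (d : ℤ) < g * n)
    {e : ℤ} (he : e ∈ stableDegrees k K n d) :
    d + (g - 3) * n + ⌈(d : ℚ) / ((g : ℚ) - 1)⌉ ≤ e := by
  obtain ⟨_, rfl⟩ := curveG_of_isGenus hK hg hgen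
  obtain ⟨E, V, α, hα, hV, hf, rfl, hst⟩ := of_mem_stableDegrees he
  have := lower_ii hV hα (by rw [finrank_fin_fun]; exact hn) hst
    (by rw [finrank_fin_fun, hf]; exact hd) (by rw [finrank_fin_fun, hf]; exact hd'.le)
  rw [finrank_fin_fun, hf] at this
  obtain ⟨c1, c2⟩ := ceil_bounds hg d
  generalize ⌈(d : ℚ) / ((gen k K : ℚ) - 1)⌉ = c at *
  by_contra hcon
  push Not at hcon
  have h1 : E.deg + 1 ≤ d + (gen k K - 3) * n + c := by omega
  have h2 := mul_le_mul_of_nonneg_left h1 (by omega : (0 : ℤ) ≤ gen k K - 1)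
  nlinarith

/-- The systems with the minimal degree. -/
theorem isLeast_mid [IsAlgClosed k] [CharZero k] (hK : IsCurveField k K) {g : ℤ} (hg : 2 ≤ g)
    (hgen : IsGenus k K g) {n d : ℕ} (hn : 2 ≤ n) (hd : (g - 1) * n < d) (hd' : (d : ℤ) < g * n)
    {c : ℤ} (hc : c = ⌈(d : ℚ) / ((g : ℚ) - 1)⌉)
    (hU : (1 + (c - n - 1) * ((g - 1) * c - d)) * ((g + 1) * n - d - c) < n) :
    IsLeast (stableDegrees k K n d) (d + (g - 3) * n + c) := by
  refine ⟨?_, fun e he => by rw [hc]; exact lower_mid hK hg hgen hn hd hd' he⟩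
  obtain ⟨_, rfl⟩ := curveG_of_isGenus hK hg hgen
  obtain ⟨c1, c2⟩ := ceil_bounds hg d
  rw [← hc] at c1 c2
  have hg1 : (0 : ℤ) < gen k K - 1 := by omega
  have hnc : (n : ℤ) < c := by
    by_contra hcon
    push Not at hcon
    nlinarith
  have hcn : c ≤ 2 * n := by
    by_contra hcon
    push Not at hcon
    have h1 : (2 : ℤ) * n ≤ c - 1 := by omega
    have h2 := mul_le_mul_of_nonneg_left h1 hg1.le
    have h3 : (gen k K) * (n : ℤ) ≤ (gen k K - 1) * (2 * n) := by nlinarith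
    linarith
  obtain ⟨m, hm⟩ : ∃ m : ℕ, c = n + m := ⟨(c - n).toNat, by omega⟩
  obtain ⟨x, hx⟩ : ∃ x : ℕ, (d : ℤ) = (gen k K - 1) * n + x :=
    ⟨((d : ℤ) - (gen k K - 1) * n).toNat, by omega⟩
  have hxn : (x : ℤ) < n := by linarith
  obtain ⟨E, V, α, hα, hV, hf, hE, hS⟩ := exists_ii (k := k) (K := K) (n := n) (m := m) (x := x)
    (kk := d) (by omega) (by omega) hx (by exact_mod_cast hxn)
    (by rw [hm] at c2; linarith) (by
      have h1 : (1 + (c - n - 1) * ((gen k K - 1) * c - d)) * ((gen k K + 1) * n - d - c) =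
        (1 + ((m : ℤ) - 1) * ((gen k K - 1) * m - x)) * ((n : ℤ) - x - m) := by
        rw [hx, hm]; ring
      rw [h1] at hU
      exact hU)
  have := mem_stableDegrees (by omega) hα hV hf hS
  rw [hE] at this
  have h2 : (d : ℤ) + (gen k K - 3) * n + c = d + (gen k K - 2) * n + m := by rw [hm]; ring
  rw [h2]
  exact this

/-- The condition in the simple cases. -/
lemma cond_of {g : ℤ} (hg : 2 ≤ g) {n d : ℕ} (hn : 2 ≤ n) (hd : (g - 1) * n < d)
    (hd' : (d : ℤ) < g * n) {c : ℤ} (hc : c = ⌈(d : ℚ) / ((g : ℚ) - 1)⌉)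
    (h : g - 1 ∣ (d : ℤ) ∨ (d : ℤ) ≤ (g - 1) * (n + 1) ∨ (g + 1) * n ≤ d + c ∨
      (1 + (c - n - 1) * ((g - 1) * c - d)) * ((g + 1) * n - d - c) < n) :
    (1 + (c - n - 1) * ((g - 1) * c - d)) * ((g + 1) * n - d - c) < n := by
  obtain ⟨c1, c2⟩ := ceil_bounds hg d
  rw [← hc] at c1 c2
  have hg1 : (0 : ℤ) < g - 1 := by omega
  have hnz : (2 : ℤ) ≤ n := by exact_mod_cast hn
  have hnc : (n : ℤ) < c := by
    by_contra hcon
    push Not at hcon
    nlinarith
  have hlt : (g + 1) * (n : ℤ) - d - c < n := by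
    nlinarith
  rcases h with h | h | h | h
  · obtain ⟨q, hq⟩ := h
    have h1 : c = q := by
      have h2 : (g - 1) * (c - 1) < (g - 1) * q := by rw [← hq]; exact c1
      have h3 : (g - 1) * q ≤ (g - 1) * c := by rw [← hq]; exact c2
      have h4 := lt_of_mul_lt_mul_left h2 hg1.le
      have h5 := le_of_mul_le_mul_left h3 hg1
      omega
    have h2 : (g - 1) * c - d = 0 := by rw [h1, hq]; ring
    rw [h2, mul_zero, add_zero, one_mul]
    exact hlt
  · have h1 : c = n + 1 := by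
      have h2 : (g - 1) * (c - 1) < (g - 1) * (n + 1) := lt_of_lt_of_le c1 h
      have h3 := lt_of_mul_lt_mul_left h2 hg1.le
      omega
    have h2 : c - n - 1 = 0 := by rw [h1]; ring
    rw [h2, zero_mul, add_zero, one_mul]
    exact hlt
  · have h1 : 0 ≤ (c - n - 1) * ((g - 1) * c - d) :=
      mul_nonneg (by omega) (by linarith)
    have h2 : (g + 1) * (n : ℤ) - d - c ≤ 0 := by linarith
    nlinarith
  · exact h

end Pool.Agent.MP_09eaec.GG
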